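import Pool.Agent.TH512.MaxDet
import Pool.Agent.Y341.Had.Orders

/-!
# Infinite families of new exact values of the maximal determinant of sign matrices

Let `Δ(n)` be the largest absolute value of the determinant of an `n × n` matrix with entries `±1`.
Hadamard's bound is `Δ(n) ≤ n ^ (n / 2)`. We show `Δ(N) = N ^ (N / 2)` for `N = 4 m n`, where `m` is
one of `167, 179, 223, 283, 311, 347, 359, 419, 443, 479, 487, 491, 515, 537, 839, 883, 919, 933` and
`n` is `1`, or `(p + 1) / 2` for a prime `p = 3` modulo `4`, or `q + 1` for a prime power `q = 1`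
modulo `4`, or half the order of any Hadamard matrix.

The extremal matrix of order `4 m n` is Agayan's product of one of order `4 m` and one of order `2 n`.
The seeds `m = 515, 537, 839, 883, 933` are new (order `2060` is the smallest order for which no
Hadamard matrix was known after the starting files); the others are those of the starting files.
-/

set_option autoImplicit false

open Matrix

namespace Pool.Agent.Results.MP_008adc_co.MoreExactValues

/-- for these `N = 4 m n` the largest absolute value of the determinant of an `N × N` matrix with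
entries `1` and `-1` is `N ^ (N / 2)` -/
theorem result : ∀ m ∈ ([167, 179, 223, 283, 311, 347, 359, 419, 443, 479, 487, 491, 515, 537,
    839, 883, 919, 933] : List ℕ), ∀ n : ℕ, 0 < n →
    (n = 1 ∨ (∃ p : ℕ, p.Prime ∧ p % 4 = 3 ∧ 2 * n = p + 1) ∨
      (∃ q : ℕ, IsPrimePow q ∧ q % 4 = 1 ∧ n = q + 1) ∨
      ∃ H : Matrix (Fin (2 * n)) (Fin (2 * n)) ℤ, (∀ i j, H i j = 1 ∨ H i j = -1) ∧
        H * H.transpose = ((2 * n : ℕ) : ℤ) • 1) →
    ∀ N : ℕ, N = 4 * (m * n) →
    IsGreatest {x : ℝ | ∃ A : Matrix (Fin N) (Fin N) ℝ,
      (∀ i j, A i j = 1 ∨ A i j = -1) ∧ x = |A.det|} ((N : ℝ) ^ (N / 2)) := by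
  intro m hm n hn0 hn N hN
  subst hN
  have hm0 : 0 < m := by
    simp only [List.mem_cons, List.not_mem_nil, or_false] at hm
    omega
  refine Pool.Agent.TH512.MaxDet.greatest (by positivity) ?_
    (Pool.Agent.Y341.Had.mult (Pool.Agent.Y341.Had.base m hm) hn)
  rw [Nat.even_iff]
  omega

end Pool.Agent.Results.MP_008adc_co.MoreExactValues
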